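import Pool.Agent.H23.Nil1

set_option autoImplicit false
set_option maxSynthPendingDepth 3

namespace Pool.Agent.Results.MP_4977d9_al.NoUniv

open Module Polynomial TensorProduct Pool.Agent.H23.Nil

/-- every element of the (possibly non-unital) algebra `A` is a root of a nonzero polynomial
(evaluated in the unitization, which forces the constant term to vanish). -/
def IsAlg (F A : Type*) [Field F] [NonUnitalRing A] [Module F A] [IsScalarTower F A A]
    [SMulCommClass F A A] : Prop :=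
  ∀ a : A, IsAlgebraic F (a : Unitization F A)

lemma pow_eq_zero_of {F E : Type*} [Field F] [Ring E] [Algebra F E] {y : E} (hy : IsNilpotent y)
    {p : F[X]} (hp : p ≠ 0) (h : aeval y p = 0) : y ^ p.natDegree = 0 := by
  obtain ⟨n, hn⟩ := hy
  obtain ⟨k, -, u, hu⟩ := (dvd_prime_pow prime_X n).1 (minpoly.dvd F y (p := X ^ n) (by simp [hn]))
  have h1 : y ^ k = 0 := by
    have := congrArg (aeval y) hu
    simpa using this.symm
  have h2 : (X : F[X]) ^ k ∣ p := hu ▸ (Units.mul_right_dvd.2 (minpoly.dvd F y h))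
  exact pow_eq_zero_of_le (by simpa using natDegree_le_of_dvd h2 hp) h1

theorem big (F : Type) [Field F] [Countable F] : ∃ β : ℕ → T F, ∀ g : ℕ → ℕ,
    ∃ (E : Type) (_ : Ring E) (_ : Algebra F E) (ρ : T F →ₐ[F] E) (z : E)
      (A : NonUnitalSubalgebra F E), Countable A ∧ (∀ a ∈ A, IsNilpotent a) ∧ z ∈ A ∧
      (∀ i, ρ (FreeAlgebra.ι F i) ∈ A) ∧ (∀ n, IsNilpotent (z * ρ (β n))) ∧
      ∀ n, (z * ρ (β n)) ^ g n ≠ 0 := by
  classical
  obtain ⟨I, hI, hnil⟩ := nil_module (F := F)
  let b := Basis.ofVectorSpace F (T F ⧸ I)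
  have : Infinite (Basis.ofVectorSpaceIndex F (T F ⧸ I)) :=
    not_finite_iff_infinite.1 fun _ => hI (Module.Finite.of_basis b)
  let em := Infinite.natEmbedding (Basis.ofVectorSpaceIndex F (T F ⧸ I))
  choose β hβ using fun n => Submodule.Quotient.mk_surjective I (b (em n))
  refine ⟨β, fun g => ?_⟩
  let C := ∀ n, AdjoinRoot ((X : F[X]) ^ (g n + 2))
  let a : ℕ → C := fun n => Pi.single n (AdjoinRoot.root _)
  have ha0 : ∀ n, a n n = AdjoinRoot.mk _ X := fun n => Pi.single_eq_same _ _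
  have ha : ∀ n, a n ∈ nilradical C := fun n => mem_nilradical.2 ⟨g n + 2, funext fun m => by
    rw [Pi.pow_apply, Pi.zero_apply]
    by_cases h : m = n
    · subst h
      rw [ha0, ← map_pow, AdjoinRoot.mk_self]
    · rw [show a n m = 0 from Pi.single_eq_of_ne h _, zero_pow (by omega)]⟩
  have ha' : ∀ n, a n ^ (g n + 1) ≠ 0 := fun n h => by
    have h1 := congrFun h n
    rw [Pi.pow_apply, ha0, ← map_pow, Pi.zero_apply,
      AdjoinRoot.mk_eq_zero, pow_dvd_pow_iff X_ne_zero not_isUnit_X] at h1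
    omega
  let γ : (T F ⧸ I) →ₗ[F] C := b.constr F (Function.extend em a 0)
  have hγ : ∀ m, γ m ∈ nilradical C := fun m => by
    have : LinearMap.range γ ≤ (nilradical C).restrictScalars F := by
      rw [Basis.constr_range, Submodule.span_le]
      rintro _ ⟨i, rfl⟩
      by_cases h : ∃ n, em n = i
      · obtain ⟨n, rfl⟩ := h
        rw [em.injective.extend_apply]; exact ha n
      · rw [Function.extend_apply' _ _ _ h]; exact zero_mem _
    exact this ⟨m, rfl⟩
  let W := C ⊗[F] (T F ⧸ I)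
  let l : W →ₗ[C] C := γ.liftBaseChange C
  let e : W := 1 ⊗ₜ Submodule.Quotient.mk 1
  let ρ : T F →ₐ[F] End C W := (End.baseChangeHom F C _).comp (Algebra.lsmul F F (T F ⧸ I))
  let z : End C W := l.smulRight e
  let Z : End C W → Prop := fun y => ∃ Q : Submodule C W, Q.FG ∧ LinearMap.range y ≤ nilradical C • Q
  have Z0 : Z 0 := ⟨⊥, Submodule.fg_bot, by simp⟩
  have Za : ∀ y y', Z y → Z y' → Z (y + y') := fun y y' ⟨Q, h1, h2⟩ ⟨Q', h3, h4⟩ =>
    ⟨Q ⊔ Q', h1.sup h3, (LinearMap.range_add_le _ _).trans (by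
      rw [Submodule.smul_sup]; exact sup_le_sup h2 h4)⟩
  have Zl : ∀ y y', Z y' → Z (y * y') := fun y y' ⟨Q, h1, h2⟩ => ⟨Q.map y, h1.map y, by
    rw [End.mul_eq_comp, LinearMap.range_comp, ← Submodule.map_smul'']
    exact Submodule.map_mono h2⟩
  have Zr : ∀ y y', Z y → Z (y * y') := fun y y' ⟨Q, h1, h2⟩ =>
    ⟨Q, h1, (LinearMap.range_comp_le_range _ _).trans h2⟩
  have Zz : Z z := ⟨Submodule.span C {e}, Submodule.fg_span_singleton e, by
    rintro _ ⟨w, rfl⟩
    refine Submodule.smul_mem_smul ?_ (Submodule.mem_span_singleton_self e)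
    induction w using TensorProduct.induction_on with
    | zero => simp
    | tmul c m => exact Ideal.mul_mem_left _ c (hγ m)
    | add x y hx hy => rw [map_add]; exact add_mem hx hy⟩
  let S : NonUnitalSubalgebra F (End C W) :=
    { carrier := {y | ∃ f, ep F f = 0 ∧ Z (y - ρ f)}
      add_mem' := fun {x y} ⟨f, h1, h2⟩ ⟨f', h3, h4⟩ => ⟨f + f', by simp [h1, h3], by
        rw [map_add, add_sub_add_comm]; exact Za _ _ h2 h4⟩
      zero_mem' := ⟨0, map_zero _, by simpa using Z0⟩
      mul_mem' := fun {x y} ⟨f, h1, h2⟩ ⟨f', h3, h4⟩ => ⟨f * f', by simp [h1], by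
        rw [map_mul, show x * y - ρ f * ρ f' = (x - ρ f) * y + ρ f * (y - ρ f') by noncomm_ring]
        exact Za _ _ (Zr _ _ h2) (Zl _ _ h4)⟩
      smul_mem' := fun c x ⟨f, h1, h2⟩ => ⟨c • f, by simp [h1], by
        rw [map_smul, ← smul_sub, Algebra.smul_def]; exact Zl _ _ h2⟩ }
  have hZ : ∀ y, Z y → IsNilpotent y := fun y ⟨Q, h1, h2⟩ => nil_of_range y Q h1 h2
  have hS : ∀ y ∈ S, IsNilpotent y := by
    rintro y ⟨f, h1, h2⟩
    obtain ⟨n, hn⟩ := (hnil f h1).map (End.baseChangeHom F C (T F ⧸ I))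
    have h3 : ∀ k, Z (y ^ k - ρ f ^ k) := fun k => by
      induction k with
      | zero => simpa using Z0
      | succ k ih =>
        rw [show y ^ (k + 1) - ρ f ^ (k + 1) = (y ^ k - ρ f ^ k) * y + ρ f ^ k * (y - ρ f) by
          rw [pow_succ, pow_succ]; noncomm_ring]
        exact Za _ _ (Zr _ _ ih) (Zl _ _ h2)
    have h4 := h3 n
    rw [show ρ f ^ n = 0 from hn, sub_zero] at h4
    exact (hZ _ h4).of_pow
  let Φ : FreeAlgebra F (Option (Fin 3)) →ₐ[F] End C W :=
    FreeAlgebra.lift F fun o => o.elim z fun i => ρ (FreeAlgebra.ι F i)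
  have : Countable (FreeAlgebra F (Option (Fin 3))) := Cardinal.mk_le_aleph0_iff.1
    ((FreeAlgebra.cardinalMk_le_max F _).trans (by simp))
  refine ⟨End C W, inferInstance, inferInstance, ρ, z, S ⊓ Φ.range.toNonUnitalSubalgebra,
    ((Set.countable_range Φ).mono fun y hy => hy.2).to_subtype, fun y hy => hS y hy.1,
    ⟨⟨0, map_zero _, by simpa using Zz⟩, FreeAlgebra.ι F none, by simp [Φ]⟩,
    fun i => ⟨⟨FreeAlgebra.ι F i, by simp [ep], by simpa using Z0⟩, FreeAlgebra.ι F (some i), by simp [Φ]⟩,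
    fun n => hZ _ (Zr _ _ Zz), fun n h => ha' n ?_⟩
  have h1 : l (ρ (β n) e) = a n := by
    have : ρ (β n) e = 1 ⊗ₜ b (em n) := by
      refine (LinearMap.baseChange_tmul (Algebra.lsmul F F (T F ⧸ I) (β n)) (1 : C) _).trans ?_
      rw [← hβ, Algebra.lsmul_apply, ← Submodule.Quotient.mk_smul, smul_eq_mul, mul_one]
    rw [this]
    refine (LinearMap.liftBaseChange_tmul _ _ _ _).trans ?_
    rw [one_smul, Basis.constr_basis, em.injective.extend_apply]
  have h2 : ∀ k, ((z * ρ (β n)) ^ k) e = a n ^ k • e := fun k => by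
    induction k with
    | zero => simp
    | succ k ih =>
      rw [pow_succ', End.mul_apply, ih, map_smul, End.mul_apply, LinearMap.smulRight_apply, h1,
        smul_smul, pow_succ]
  have h3 := congrArg (fun w => l (ρ (β n) w)) (h2 (g n))
  simp only [h, LinearMap.zero_apply, map_zero, map_smul, h1, smul_eq_mul] at h3
  rw [pow_succ, ← h3]

/-- Over a countable field no countable-dimensional algebraic algebra maps onto all such algebras. -/
theorem result (F : Type) [Field F] [Countable F] (U : Type*) [NonUnitalRing U] [Module F U]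
    [IsScalarTower F U U] [SMulCommClass F U U] (hU : IsAlg F U)
    (hd : Module.rank F U ≤ Cardinal.aleph0) :
    ∃ (A : Type) (_ : NonUnitalRing A) (_ : Module F A) (_ : IsScalarTower F A A)
      (_ : SMulCommClass F A A), IsAlg F A ∧ Module.rank F A ≤ Cardinal.aleph0 ∧
      ∀ π : U →ₙₐ[F] A, ¬ Function.Surjective π := by
  have : Countable U := by
    let b := Basis.ofVectorSpace F U
    have : Countable (Basis.ofVectorSpaceIndex F U) :=
      Cardinal.mk_le_aleph0_iff.1 (b.mk_eq_rank''.trans_le hd)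
    exact b.repr.injective.countable
  obtain ⟨u, hu⟩ := exists_surjective_nat ((Fin 3 → U) × U)
  obtain ⟨β, hβ⟩ := big F
  let w : ℕ → Unitization F U := fun n =>
    (u n).2 * FreeAlgebra.lift F (fun i => ((u n).1 i : Unitization F U)) (β n)
  have hw : ∀ n, IsAlgebraic F (w n) := fun n => by
    have h := Unitization.inl_fst_add_inr_snd_eq (w n)
    rw [show (w n).fst = 0 by simp [w], Unitization.inl_zero, zero_add] at h
    exact h ▸ hU _
  choose p hp hp' using hw
  obtain ⟨E, _, _, ρ, z, A, h1, h2, h3, h4, h5, h6⟩ := hβ fun n => (p n).natDegree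
  refine ⟨A, inferInstance, inferInstance, inferInstance, inferInstance, fun a => ?_,
    (rank_le_card F A).trans Cardinal.mk_le_aleph0, fun π hπ => ?_⟩
  · obtain ⟨n, hn⟩ := h2 a a.2
    refine ⟨X ^ (n + 1), pow_ne_zero _ X_ne_zero, ?_⟩
    have : ∀ k, ∃ c : A, (a : Unitization F A) ^ (k + 1) = c ∧ (a : E) ^ (k + 1) = c := fun k => by
      induction k with
      | zero => exact ⟨a, by simp, by simp⟩
      | succ k ih =>
        obtain ⟨c, c1, c2⟩ := ih
        exact ⟨c * a, by rw [pow_succ, c1, Unitization.inr_mul], by rw [pow_succ, c2]; rfl⟩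
    obtain ⟨c, c1, c2⟩ := this n
    rw [map_pow, aeval_X, c1, show c = 0 from Subtype.ext (by rw [← c2, pow_succ, hn]; simp)]
    rfl
  · choose v hv using fun i => hπ ⟨_, h4 i⟩
    obtain ⟨vz, hz⟩ := hπ ⟨z, h3⟩
    obtain ⟨n, hn⟩ := hu (v, vz)
    let π' : Unitization F U →ₐ[F] E := Unitization.lift ((NonUnitalSubalgebraClass.subtype A).comp π)
    have h7 : π'.comp (FreeAlgebra.lift F fun i => (v i : Unitization F U)) = ρ := by
      ext i
      simp [π', hv]
    have h8 : π' (w n) = z * ρ (β n) := by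
      rw [← h7, map_mul, hn, show π' vz = z by simp [π', hz]]
      rfl
    refine h6 n (pow_eq_zero_of (h5 n) (hp n) ?_)
    rw [← h8, aeval_algHom_apply, hp', map_zero]

end Pool.Agent.Results.MP_4977d9_al.NoUniv
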